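import Pool.Agent.H341.MA.Main
import Pool.Agent.H341.FM.Asm
import Pool.Agent.H341.FM.Dir
import Pool.Agent.H341.FM.Sh
import Pool.Agent.H341.FM.Tr
import Pool.Agent.H341.FM.Mt
import Pool.Agent.H341.FM.Gh
import Pool.Agent.H341.FM.Finc

/-!
# A `p`-group with a finite orbit stabilises a monolith

The definitions (`Mediangle`, `EvenConvexCycle`, `Itv`) are in `Pool/Agent/H341/MA/Defs.lean`,
`Gated` is in `Pool/Agent/H341/MA/St1.lean`, and `ElemPar`, `SameHyp`, `Transverse`, `Monolith` are in
`Pool/Agent/H341/FM/Defs.lean`.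
-/

set_option autoImplicit false

namespace Pool.Agent.H341.Old.PGroup

open Pool.Agent.H341.MA Pool.Agent.H341.FM

universe u v

/-- Let a `p`-group act by automorphisms on a mediangle graph (of any cardinality), with a finite
orbit. Then the group stabilises a monolith. -/
theorem result (p : ℕ) (hp : p.Prime) (V : Type u) (X : SimpleGraph V) (G : Type v) [Group G]
    [MulAction G V] (hX : Mediangle X) (hG : ∀ (g : G) (x y : V), X.Adj x y → X.Adj (g • x) (g • y))
    (hpG : IsPGroup p G) (horb : ∃ x : V, (MulAction.orbit G x).Finite) :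
    ∃ M : Set V, Monolith X M ∧ ∀ g : G, (g • ·) '' M = M := by
  have e1 : S_E1.{u} := s_e1
  have e2 : S_E2.{u} := s_e2
  have e3 : S_E3.{u} := s_e3
  have e4 : S_E4.{u} := s_e4 e3
  have gate : S_GATE.{u} := s_gate e1 e3
  have gp : S_GP.{u} := s_gp e1 e2
  have clq : S_CLQ.{u} := s_clq
  have sq : S_SQ.{u} := s_sq e1 e2 e3
  have thick : S_THICK.{u} := s_thick e1 e2 e3 e4 clq
  have wsq : S_WSQ.{u} := s_wsq e1 e2 e3 e4 sq thick
  have w : S_W.{u} := s_w e1 e2 e3 e4 gate thick wsq
  have pp : S_PP.{u} := s_pp e1 e2 e3 clq thick wsq w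
  have par : S_PAR.{u} := s_par e1 e2 e3 clq w pp
  have ham : S_HAM.{u} := s_ham clq par
  have box : S_BOX.{u} := s_box
  have tn : T_N.{u} := t_n t_meet t_y (t_lift t_g)
  have tmain : T_MAIN.{u} := t_main t_meet tn (t_pi t_meet)
  have move : S_MOVE.{u} := s_move e1 e2 e3 box thick
  have opp : S_OPP.{u} := s_opp box move
  have subc : S_SUBC.{u} := s_subc e1 e2 e3 e4 gate box opp
  have star : S_STAR.{u} := s_star e3 gp
  have dir : S_DIR.{u} := s_dir e1 box
  have sh : S_SH.{u} := s_sh e1 e2 e3 w box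
  have tr : S_TR.{u} := s_tr dir sh box
  have mt : S_MT.{u} := s_mt e2 box t_meet tmain
  have ghg : S_GHG.{u} := s_ghg gate gp
  have sg : S_SG.{u} := s_sg box gp star subc
  have finc : S_FINC.{u, v} := s_finc box
  exact fixed_monolith box ham gp ghg mt sg sh tr finc p hp V X G hX hG hpG horb

end Pool.Agent.H341.Old.PGroup
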